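import Pool.Agent.J4H71.PC.Fin

/-!
# Homogeneous fibres (helper71)
-/

set_option autoImplicit false
set_option linter.unusedSectionVars false

namespace Pool.Agent.J4H71.NF

open Set Filter Topology Pool.Agent.H581R2 Pool.Agent.TH729.SQ Pool.Agent.J4H71.SC
  Pool.Agent.J4H71.PC

/-- quasi-homogeneous polynomials with the weights `k` and the degree `s` -/
def QH {σ : Type} (k : σ → ℤ) (s : ℕ) (F : MvPolynomial σ ℚ) : Prop :=
  ∀ (r : ℚ) (u : σ → ℚ), 0 < r → MvPolynomial.eval (fun i => r ^ k i * u i) F =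
    r ^ s * MvPolynomial.eval u F

section fib

variable {μ : Type} [Fintype μ]

/-- the equation `c₀ + c₁ H(u) = 0` -/
def PhiH (H : MvPolynomial μ ℚ) (M : Set (μ → ℚ)) (c : Option (Fin 1) → ℚ) : Set (μ → ℚ) :=
  {u | u ∈ M ∧ c none + c (some 0) * MvPolynomial.eval u H = 0}

/-- the classes which are met by the solutions -/
def Vs (s : ℕ) (H : MvPolynomial μ ℚ) {A : Type} (N : A → Set (μ → ℚ)) (W : A → Set (μ → ℝ))
    (c : Option (Fin 1) → ℚ) : Set (Set (μ → ℝ)) :=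
  {V | ∃ α, ∃ u₀ ∈ N α, (∃ r : ℚ, r ≠ 0 ∧ c none + c (some 0) * (r ^ s * MvPolynomial.eval u₀ H) = 0) ∧
    V = closure (rl (PC.cls (fun _ : Unit => s) (fun _ => H) (N α) u₀)) ∩ W α}

/-- the shapes -/
def ShH (s : ℕ) (H : MvPolynomial μ ℚ) {A : Type} (N : A → Set (μ → ℚ)) (W : A → Set (μ → ℝ))
    (c : Option (Fin 1) → ℚ) : Set (Option (Fin 1) ⊕ μ → ℝ) :=
  {v | v (Sum.inl none) + v (Sum.inl (some 0)) * (MvPolynomial.aeval (fun k => v (Sum.inr k)) H : ℝ) = 0 ∧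
    ∃ V ∈ Vs s H N W c, (fun k => v (Sum.inr k)) ∈ V}

lemma cont_aeval' (p : MvPolynomial μ ℚ) :
    Continuous fun x : μ → ℝ => (MvPolynomial.aeval x p : ℝ) := by
  have h : (fun x : μ → ℝ => (MvPolynomial.aeval x p : ℝ)) =
      fun x => MvPolynomial.eval x (MvPolynomial.map (algebraMap ℚ ℝ) p) := by
    funext x
    rw [MvPolynomial.eval_map, MvPolynomial.aeval_def]
  rw [h]
  exact MvPolynomial.continuous_eval _

/-- **Homogeneous fibres.** -/
theorem fib_form {s : ℕ} (hs : s ≠ 0) {H : MvPolynomial μ ℚ} {w : μ → ℤ} (hH : QH w s H)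
    {M : Set (μ → ℚ)}
    (hM : ∀ (r : ℚ) (u : μ → ℚ), 0 < r → u ∈ M → (fun i => r ^ w i * u i) ∈ M)
    (hA : Adm (fun _ : Unit => s) (fun _ => H) M) : ∃ Sh, Fib s (PhiH H M) Sh := by
  classical
  obtain ⟨A, hAf, N, W, hN, hP⟩ := hA
  have hVfin : (⋃ α, {V : Set (μ → ℝ) | V ⊆ W α ∧ LC (W α) V}).Finite :=
    Set.finite_iUnion fun α => fc_sa μ (W α) (hP α).sa
  have hVsub : ∀ c, Vs s H N W c ⊆ ⋃ α, {V : Set (μ → ℝ) | V ⊆ W α ∧ LC (W α) V} := by
    rintro c _ ⟨α, u₀, hu₀, -, rfl⟩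
    exact mem_iUnion.2 ⟨α, inter_subset_right, (hP α).lc hu₀⟩
  refine ⟨ShH s H N W, ?_, ?_, ?_, ?_⟩
  · refine Set.Finite.subset (Set.Finite.image (fun 𝒱 : Set (Set (μ → ℝ)) =>
      {v : Option (Fin 1) ⊕ μ → ℝ | v (Sum.inl none) + v (Sum.inl (some 0)) *
        (MvPolynomial.aeval (fun k => v (Sum.inr k)) H : ℝ) = 0 ∧
        ∃ V ∈ 𝒱, (fun k => v (Sum.inr k)) ∈ V}) hVfin.powerset) ?_
    rintro _ ⟨c, rfl⟩
    exact ⟨Vs s H N W c, hVsub c, rfl⟩
  · intro c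
    refine SAP.and (SAP.eq_zero ((PF.coord _).add ((PF.coord _).mul ?_))) ?_
    · exact (PF.aeval H).comp (φ := fun (v : Option (Fin 1) ⊕ μ → ℝ) k => v (Sum.inr k))
        fun k => PF.coord _
    · have hf : (Vs s H N W c).Finite := hVfin.subset (hVsub c)
      refine SAP.congr (SAP.exists_mem hf.toFinset
        (p := fun V (v : Option (Fin 1) ⊕ μ → ℝ) => (fun k => v (Sum.inr k)) ∈ V) ?_) fun v => ?_
      · intro V hV
        obtain ⟨α, u₀, hu₀, -, rfl⟩ := hf.mem_toFinset.1 hV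
        exact SAP.preimage (p := fun x => x ∈ closure (rl (PC.cls (fun _ : Unit => s) (fun _ => H)
          (N α) u₀)) ∩ W α) (sa_of_lc μ (W α) _ (hP α).sa inter_subset_right ((hP α).lc hu₀))
          fun k => PF.coord _
      · simp only [Set.Finite.mem_toFinset]
  · rintro c u ⟨huM, hu⟩
    rw [hN, mem_iUnion] at huM
    obtain ⟨α, hα⟩ := huM
    refine ⟨?_, _, ⟨α, u, hα, ⟨1, one_ne_zero, by rw [one_pow, one_mul]; exact hu⟩, rfl⟩,
      subset_closure (mem_rl ⟨hα, fun _ => PS.refl _ _⟩), (hP α).sub _ hα⟩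
    simp only [Sum.elim_inl, Sum.elim_inr]
    rw [aeval_cast]
    exact_mod_cast hu
  · rintro c b c' u' hcb hb hc0 ⟨hv1, _, ⟨α, u₀, hu₀, ⟨r, hr0, hr⟩, rfl⟩, hv2, hv3⟩ ε hε
    simp only [Sum.elim_inl, Sum.elim_inr] at hv1 hv2 hv3
    have hu0M : ∀ u ∈ PC.cls (fun _ : Unit => s) (fun _ => H) (N α) u₀, u ∈ M := by
      intro u hu
      rw [hN]
      exact mem_iUnion.2 ⟨α, hu.1⟩
    -- approximations
    have happ : ∀ δ : ℝ, 0 < δ → ∃ u ∈ PC.cls (fun _ : Unit => s) (fun _ => H) (N α) u₀,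
        ∀ k, |(u k : ℝ) - u' k| < δ := by
      intro δ hδ
      obtain ⟨_, ⟨u, hu, rfl⟩, hd⟩ := Metric.mem_closure_iff.1 hv2 δ hδ
      refine ⟨u, hu, fun k => ?_⟩
      have h1 := (dist_pi_lt_iff hδ).1 hd k
      rw [dist_comm, Real.dist_eq] at h1
      exact h1
    by_cases h1 : c (some 0) = 0
    · -- no condition
      rw [h1, zero_mul, add_zero] at hr
      obtain ⟨u, hu, hu'⟩ := happ ε hε
      refine Eventually.of_forall fun n => ⟨u, ⟨hu0M u hu, ?_⟩, hu'⟩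
      rw [(hcb n none).eq_zero_iff.1 hr, (hcb n (some 0)).eq_zero_iff.1 h1]
      ring
    by_cases h2 : MvPolynomial.eval u₀ H = 0
    · rw [h2, mul_zero, mul_zero, add_zero] at hr
      obtain ⟨u, hu, hu'⟩ := happ ε hε
      refine Eventually.of_forall fun n => ⟨u, ⟨hu0M u hu, ?_⟩, hu'⟩
      rw [(hcb n none).eq_zero_iff.1 hr, ((hu.2 ()).eq_zero_iff).1 h2]
      ring
    -- the main case
    have hHW : ∀ x ∈ W α, (MvPolynomial.aeval x H : ℝ) ≠ 0 := by
      rcases (hP α).sign () with h | h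
      · exact h
      · exfalso
        apply h2
        have h3 := h _ ((hP α).sub _ hu₀)
        rw [aeval_cast] at h3
        exact_mod_cast h3
    have hHu' : (MvPolynomial.aeval u' H : ℝ) ≠ 0 := hHW _ hv3
    have hc1' : c' (some 0) ≠ 0 := fun h => h1 (hc0 _ h)
    have hval : -(c' none) / (c' (some 0) * (MvPolynomial.aeval u' H : ℝ)) = 1 := by
      rw [div_eq_one_iff_eq (mul_ne_zero hc1' hHu')]
      linarith
    set f : ℝ × ℝ × (μ → ℝ) → (μ → ℝ) := fun p i =>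
      ((-p.1 / (p.2.1 * (MvPolynomial.aeval p.2.2 H : ℝ))) ^ ((s : ℝ)⁻¹)) ^ w i * p.2.2 i with hf
    set f₀ : ℝ × ℝ × (μ → ℝ) → ℝ := fun p => -p.1 / (p.2.1 * (MvPolynomial.aeval p.2.2 H : ℝ)) with hf₀
    have hf₀c : ContinuousAt f₀ (c' none, c' (some 0), u') := by
      refine ContinuousAt.div continuousAt_fst.neg ?_ (mul_ne_zero hc1' hHu')
      refine (continuousAt_fst.comp continuousAt_snd).mul ?_
      exact ((cont_aeval' H).comp (continuous_snd.comp continuous_snd)).continuousAt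
    have hfc : ContinuousAt f (c' none, c' (some 0), u') := by
      refine continuousAt_pi.2 fun i => ContinuousAt.mul (ContinuousAt.zpow₀
        (hf₀c.rpow_const (Or.inl ?_)) _ (Or.inl ?_))
        ((continuous_apply i).continuousAt.comp (continuousAt_snd.comp continuousAt_snd))
      · change f₀ (c' none, c' (some 0), u') ≠ 0
        simp only [hf₀]
        rw [hval]
        exact one_ne_zero
      · change f₀ (c' none, c' (some 0), u') ^ ((s : ℝ)⁻¹) ≠ 0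
        simp only [hf₀]
        rw [hval, Real.one_rpow]
        exact one_ne_zero
    have hf1 : f (c' none, c' (some 0), u') = u' := by
      funext i
      simp only [hf]
      rw [hval, Real.one_rpow, one_zpow, one_mul]
    obtain ⟨δ₁, hδ₁, h3⟩ := Metric.continuousAt_iff.1 hfc ε hε
    obtain ⟨δ₂, hδ₂, h4⟩ := Metric.continuousAt_iff.1 hf₀c 1 one_pos
    obtain ⟨u, hu, hu'⟩ := happ (min δ₁ δ₂) (lt_min hδ₁ hδ₂)
    have hb0 := (Metric.tendsto_nhds.1 (hb none)) (min δ₁ δ₂) (lt_min hδ₁ hδ₂)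
    have hb1 := (Metric.tendsto_nhds.1 (hb (some 0))) (min δ₁ δ₂) (lt_min hδ₁ hδ₂)
    filter_upwards [hb0, hb1] with n hn0 hn1
    have hdist : dist (((b n none : ℝ), (b n (some 0) : ℝ), (fun k => (u k : ℝ))) : ℝ × ℝ × (μ → ℝ))
        (c' none, c' (some 0), u') < min δ₁ δ₂ := by
      rw [Prod.dist_eq, Prod.dist_eq]
      refine max_lt hn0 (max_lt hn1 ?_)
      rw [dist_pi_lt_iff (lt_min hδ₁ hδ₂)]
      intro k
      rw [Real.dist_eq]
      exact hu' k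
    have h5 := h3 (hdist.trans_le (min_le_left _ _))
    have h6 := h4 (hdist.trans_le (min_le_right _ _))
    rw [hf1] at h5
    -- the value
    obtain ⟨ρ, hρ0, hρ⟩ := hu.2 ()
    obtain ⟨ρ₀, hρ₀0, hρ₀⟩ := hcb n none
    obtain ⟨ρ₁, hρ₁0, hρ₁⟩ := hcb n (some 0)
    set τ₀ : ℚ := ρ₀ * r / (ρ₁ * ρ) with hτ₀
    have hb1n : b n (some 0) ≠ 0 := by
      rw [hρ₁]
      exact mul_ne_zero (pow_ne_zero _ hρ₁0) h1
    have hHu : MvPolynomial.eval u H ≠ 0 := by
      rw [hρ]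
      exact mul_ne_zero (pow_ne_zero _ hρ0) h2
    have hτ : -(b n none) / (b n (some 0) * MvPolynomial.eval u H) = τ₀ ^ s := by
      rw [div_eq_iff (mul_ne_zero hb1n hHu), hρ₀, hρ₁, hρ, hτ₀, div_pow, mul_pow, mul_pow]
      have e1 := pow_ne_zero s hρ₁0
      have e2 := pow_ne_zero s hρ0
      field_simp
      linear_combination -hr
    have hf₀v : f₀ ((b n none : ℝ), (b n (some 0) : ℝ), (fun k => (u k : ℝ))) = ((τ₀ ^ s : ℚ) : ℝ) := by
      simp only [hf₀]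
      rw [aeval_cast, ← hτ]
      push_cast
      rfl
    have hpos : (0 : ℝ) < ((τ₀ ^ s : ℚ) : ℝ) := by
      rw [hf₀v] at h6
      simp only [hf₀] at h6
      rw [hval, Real.dist_eq, abs_lt] at h6
      linarith [h6.1]
    have hpos' : 0 < τ₀ ^ s := by exact_mod_cast hpos
    have habs : |τ₀| ^ s = τ₀ ^ s := by
      rw [← abs_pow, abs_of_pos hpos']
    have hτ0 : τ₀ ≠ 0 := by
      intro h
      rw [h, zero_pow hs] at hpos'
      exact lt_irrefl _ hpos'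
    have hfv : f ((b n none : ℝ), (b n (some 0) : ℝ), (fun k => (u k : ℝ))) =
        fun k => ((|τ₀| ^ w k * u k : ℚ) : ℝ) := by
      have e1 : f ((b n none : ℝ), (b n (some 0) : ℝ), (fun k => (u k : ℝ))) =
          fun k => (f₀ ((b n none : ℝ), (b n (some 0) : ℝ), (fun k => (u k : ℝ))) ^ ((s : ℝ)⁻¹)) ^ w k *
            (u k : ℝ) := rfl
      rw [e1, hf₀v, ← habs]
      push_cast
      rw [Real.pow_rpow_inv_natCast (abs_nonneg _) hs]
    have hτp : 0 < |τ₀| := abs_pos.2 hτ0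
    refine ⟨fun k => |τ₀| ^ w k * u k, ⟨hM _ _ hτp (hu0M u hu), ?_⟩, fun k => ?_⟩
    · rw [hH _ _ hτp, habs, ← hτ]
      field_simp
      ring
    · rw [hfv, dist_pi_lt_iff hε] at h5
      have := h5 k
      rw [Real.dist_eq] at this
      exact this

/-- the equation `c₀ + ∑ c_j H_j(u) = 0` -/
def PhiG {p : ℕ} (H : Fin p → MvPolynomial μ ℚ) (M : Set (μ → ℚ)) (c : Option (Fin p) → ℚ) :
    Set (μ → ℚ) :=
  {u | u ∈ M ∧ c none + ∑ j, c (some j) * MvPolynomial.eval u (H j) = 0}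

theorem fib_one {s : ℕ} (hs : s ≠ 0) {H : Fin 1 → MvPolynomial μ ℚ} {w : μ → ℤ}
    (hH : QH w s (H 0)) {M : Set (μ → ℚ)}
    (hM : ∀ (r : ℚ) (u : μ → ℚ), 0 < r → u ∈ M → (fun i => r ^ w i * u i) ∈ M)
    (hA : Adm (fun _ : Unit => s) (fun _ => H 0) M) : ∃ Sh, Fib s (PhiG H M) Sh := by
  obtain ⟨Sh, h⟩ := fib_form hs hH hM hA
  refine ⟨Sh, ?_⟩
  have e : PhiG H M = PhiH (H 0) M := by
    funext c
    ext u
    simp [PhiG, PhiH]
  rw [e]
  exact h

end fib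

theorem fib_diag {m : ℕ} : ∃ Sh, Fib 2 (PhiG (fun j : Fin m => (MvPolynomial.X j : MvPolynomial (Fin m) ℚ) ^ 2) univ) Sh := by
  refine ⟨ShQ, ?_⟩
  have e : PhiG (fun j : Fin m => (MvPolynomial.X j : MvPolynomial (Fin m) ℚ) ^ 2) univ =
      PC.Aff (μ := Fin m) 2 := by
    funext c
    ext u
    simp [PhiG, PC.Aff]
  rw [e]
  exact fib_quad

end Pool.Agent.J4H71.NF
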