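import Pool.Agent.J4H71.NF.Norm
import Pool.Agent.J4H71.NF.FibH

/-!
# Norm form equations over products of lines (helper71)
-/

set_option autoImplicit false
set_option linter.unusedSectionVars false

namespace Pool.Agent.J4H71.NF

open Set Filter Topology Pool.Agent.H581R2 Pool.Agent.TH729.SQ Pool.Agent.J4H71.SC
  Pool.Agent.J4H71.PC

/-- the norm form fibres -/
theorem fib_norm {p m : ℕ} (hp : p = 1) {K : Type} [Field K] [Algebra ℚ K]
    (b : Module.Basis (Fin m) ℚ K) {e : ℕ} (he : e ≠ 0) {H : Fin p → MvPolynomial (Fin m) ℚ}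
    (hH : ∀ j, H j = normPoly b ^ e) : ∃ Sh, Fib (m * e) (PhiG H univ) Sh := by
  subst hp
  have hm : m ≠ 0 := by
    rintro rfl
    have : Subsingleton K := b.repr.toEquiv.subsingleton
    exact false_of_nontrivial_of_subsingleton K
  refine fib_one (w := fun _ => 1) (mul_ne_zero hm he) ?_ (fun _ _ _ _ => mem_univ _) ?_
  · intro r u _
    rw [hH, map_pow, map_pow]
    simp only [zpow_one]
    rw [norm_smul, mul_pow, Fintype.card_fin, pow_mul]
  · rw [hH]
    exact norm_adm (R := Unit) b (fun _ => mul_ne_zero hm he) fun _ => he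

section affine

variable {ι Λ : Type} [Fintype ι] [Fintype Λ] {p m : Λ → ℕ} {s : Λ → ℕ}

/-- the rational points of the affine variety; the polynomials `A l none i` are
the factors of the constant term, and `A l (some j) i` the factors of the coefficient of
`H l j` -/
def VarG (H : ∀ l, Fin (p l) → MvPolynomial (Fin (m l)) ℚ)
    (A : ∀ l : Λ, Option (Fin (p l)) → ι → Polynomial ℚ) :
    Set ((ι ⊕ Σ l, Fin (m l)) → ℚ) :=
  {w | ∀ l, (∏ i, (A l none i).eval (w (Sum.inl i))) +
    ∑ j, (∏ i, (A l (some j) i).eval (w (Sum.inl i))) *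
      MvPolynomial.eval (fun c => w (Sum.inr ⟨l, c⟩)) (H l j) = 0}

/-- the version with the other index type -/
def VarG' (H : ∀ l, Fin (p l) → MvPolynomial (Fin (m l)) ℚ)
    (A : ∀ l : Λ, Option (Fin (p l)) → ι → Polynomial ℚ) :
    Set (((Σ _ : ι, Fin 1) ⊕ Σ l, Fin (m l)) → ℚ) :=
  {w | ∀ l, (∏ i, (A l none i).eval (w (Sum.inl ⟨i, 0⟩))) +
    ∑ j, (∏ i, (A l (some j) i).eval (w (Sum.inl ⟨i, 0⟩))) *
      MvPolynomial.eval (fun c => w (Sum.inr ⟨l, c⟩)) (H l j) = 0}

lemma VarG'_SA {H : ∀ l, Fin (p l) → MvPolynomial (Fin (m l)) ℚ}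
    (hF : ∀ l, ∃ Sh, Fib (s l) (PhiG (H l) univ) Sh)
    (A : ∀ l : Λ, Option (Fin (p l)) → ι → Polynomial ℚ)
    (hA : ∀ i, LGf (fun r : Σ l : Λ, Option (Fin (p l)) => s r.1) (fun r => A r.1 r.2 i)) :
    SA (closure (rl (VarG' H A))) := by
  classical
  choose Sh hSh using hF
  have h := Tot_SA (ι := ι) (Λ := Λ) (κ := fun _ => Fin 1)
    (R := fun _ => Σ l : Λ, Option (Fin (p l))) (ν := fun l => Option (Fin (p l)))
    (μ := fun l => Fin (m l)) (n := fun _ r => s r.1) (s := s)
    (h := fun i r => one (A r.1 r.2 i)) (N := fun _ => univ) (T := univ)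
    (fun i => (hA i).adm) (fun _ _ _ _ => mem_univ _)
    (fun _ _ => 1) (fun l j _ r => if r = ⟨l, j⟩ then 1 else 0) (by
      intro l j i r
      split_ifs with h
      · rw [h, mul_one]
      · rw [mul_zero]
        exact dvd_zero _) (Φ := fun l => PhiG (H l) univ) (Sh := Sh) hSh
  convert h using 3
  ext w
  simp only [VarG', PC.Tot, mem_univ, implies_true, true_and, Set.mem_ofPred_eq, PhiG]
  refine forall_congr' fun l => ?_
  have e : ∀ j, cof (fun _ _ => 1) (fun l j _ r => if r = ⟨l, j⟩ then 1 else 0) l j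
      (vq (fun i (r : Σ l : Λ, Option (Fin (p l))) => one (A r.1 r.2 i)) (xs w)) =
      ∏ i, (A l j i).eval (w (Sum.inl ⟨i, 0⟩)) := by
    intro j
    rw [cof, one_mul]
    refine Finset.prod_congr rfl fun i _ => ?_
    rw [Finset.prod_eq_single ⟨l, j⟩]
    · simp only [if_true, pow_one]
      exact one_eval _ _
    · intro r _ hr
      rw [if_neg hr, pow_zero]
    · intro h
      exact absurd (Finset.mem_univ _) h
  simp only [e]
  exact Iff.rfl

/-- **Affine varieties over products of lines.** -/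
theorem VarG_SA {H : ∀ l, Fin (p l) → MvPolynomial (Fin (m l)) ℚ}
    (hF : ∀ l, ∃ Sh, Fib (s l) (PhiG (H l) univ) Sh)
    (A : ∀ l : Λ, Option (Fin (p l)) → ι → Polynomial ℚ)
    (hA : ∀ i, LGf (fun r : Σ l : Λ, Option (Fin (p l)) => s r.1) (fun r => A r.1 r.2 i)) :
    SA (closure (rl (VarG H A))) := by
  classical
  have h := SA_image (κ := Empty) (VarG'_SA hF A hA)
    (fun t : ι ⊕ Σ l, Fin (m l) => MvPolynomial.X (Sum.inl (Sum.map (fun i => ⟨i, 0⟩) id t))) 1
  convert h using 3
  ext w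
  constructor
  · intro hw
    refine ⟨Sum.elim (fun x => w (Sum.inl x.1)) (fun x => w (Sum.inr x)), fun e => e.elim, hw, ?_, ?_⟩
    · simp
    · rintro (i | s)
      · simp
      · simp
  · rintro ⟨x, u, hx, -, hy⟩
    have : w = fun t => x (Sum.map (fun i => ⟨i, 0⟩) id t) := by
      funext t
      rw [hy]
      simp
    rw [this]
    exact hx

end affine

end Pool.Agent.J4H71.NF
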