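import Pool.Agent.J4H71.PC.Fin

/-!
# Relative invariants of families of linear maps are admissible (helper71)
-/

set_option autoImplicit false
set_option linter.unusedSectionVars false

namespace Pool.Agent.J4H71.NF

open Set Filter Topology Pool.Agent.H581R2 Pool.Agent.TH729.SQ Pool.Agent.J4H71.SC
  Pool.Agent.J4H71.PC

section deriv

variable {τ : Type} [Fintype τ]

/-- the derivative of a polynomial -/
theorem strict_aeval (p : MvPolynomial τ ℚ) (t : τ → ℝ) :
    HasStrictFDerivAt (fun t : τ → ℝ => (MvPolynomial.aeval t p : ℝ))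
      (∑ k, (MvPolynomial.aeval t (MvPolynomial.pderiv k p) : ℝ) •
        (ContinuousLinearMap.proj k : (τ → ℝ) →L[ℝ] ℝ)) t := by
  classical
  induction p using MvPolynomial.induction_on with
  | C a =>
    simp only [MvPolynomial.pderiv_C, map_zero, zero_smul, Finset.sum_const_zero,
      MvPolynomial.aeval_C]
    exact hasStrictFDerivAt_const _ _
  | add p q hp hq =>
    simp only [map_add, add_smul, Finset.sum_add_distrib]
    exact hp.add hq
  | mul_X p i hp =>
    have h1 : HasStrictFDerivAt (fun t : τ → ℝ => t i) (ContinuousLinearMap.proj i : (τ → ℝ) →L[ℝ] ℝ) t :=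
      (ContinuousLinearMap.proj i : (τ → ℝ) →L[ℝ] ℝ).hasStrictFDerivAt
    have h2 := hp.mul h1
    have e1 : (fun t : τ → ℝ => (MvPolynomial.aeval t (p * MvPolynomial.X i) : ℝ)) =
        fun t : τ → ℝ => (MvPolynomial.aeval t p : ℝ) * t i := by
      funext t
      simp
    rw [e1]
    refine h2.congr_fderiv ?_
    ext v
    simp only [FunLike.coe_sum, Finset.sum_apply, FunLike.coe_smul,
      Pi.smul_apply, ContinuousLinearMap.proj_apply, smul_eq_mul, add_apply,
      MvPolynomial.pderiv_mul, MvPolynomial.pderiv_X, map_add, map_mul, MvPolynomial.aeval_X]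
    have hA : ∑ x, (MvPolynomial.aeval t p : ℝ) *
        (MvPolynomial.aeval t ((Pi.single x 1 : τ → MvPolynomial τ ℚ) i) : ℝ) * v x =
        (MvPolynomial.aeval t p : ℝ) * v i := by
      rw [Finset.sum_eq_single i]
      · simp
      · intro b _ hb
        rw [Pi.single_apply, if_neg (Ne.symm hb), map_zero]
        simp
      · intro h
        exact absurd (Finset.mem_univ _) h
    simp only [add_mul, Finset.sum_add_distrib, Finset.mul_sum, hA]
    rw [add_comm]
    congr 1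
    refine Finset.sum_congr rfl fun k _ => ?_
    ring

end deriv

section family

variable {κ τ R : Type} [Fintype κ] [DecidableEq κ] [Fintype τ] [Finite R]

/-- families of linear maps, for which the functions `h r` are relative invariants -/
structure Inv (h : R → MvPolynomial κ ℚ) (g : κ → κ → MvPolynomial τ ℚ)
    (t₀ : τ → ℚ) (χ : R → MvPolynomial τ ℚ) : Prop where
  one : ∀ i j, MvPolynomial.eval t₀ (g i j) = if i = j then 1 else 0
  inv : ∀ r (t : τ → ℚ) (z : κ → ℚ),
    MvPolynomial.eval (fun i => ∑ j, MvPolynomial.eval t (g i j) * z j) (h r) =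
      MvPolynomial.eval t (χ r) * MvPolynomial.eval z (h r)

/-- the matrices -/
noncomputable def GQ (g : κ → κ → MvPolynomial τ ℚ) (t : τ → ℚ) : Matrix κ κ ℚ :=
  Matrix.of fun i j => MvPolynomial.eval t (g i j)

/-- the real matrices -/
noncomputable def GR (g : κ → κ → MvPolynomial τ ℚ) (t : τ → ℝ) : Matrix κ κ ℝ :=
  Matrix.of fun i j => MvPolynomial.aeval t (g i j)

lemma GR_cast (g : κ → κ → MvPolynomial τ ℚ) (t : τ → ℚ) :
    GR g (fun k => (t k : ℝ)) = (GQ g t).map (fun x => (x : ℝ)) := by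
  ext i j
  simp only [GR, GQ, Matrix.of_apply, Matrix.map_apply]
  exact aeval_cast _ _

lemma pow_cast (A : Matrix κ κ ℚ) (E : ℕ) :
    (A.map (fun x => (x : ℝ))) ^ E = (A ^ E).map (fun x => (x : ℝ)) := by
  have h := (Rat.castHom ℝ).mapMatrix.map_pow A E
  exact h.symm

/-- the derivatives of the entries -/
noncomputable def dg (g : κ → κ → MvPolynomial τ ℚ) (t₀ : τ → ℚ) (i j : κ) : (τ → ℝ) →L[ℝ] ℝ :=
  ∑ k, ((MvPolynomial.eval t₀ (MvPolynomial.pderiv k (g i j)) : ℚ) : ℝ) •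
    (ContinuousLinearMap.proj k : (τ → ℝ) →L[ℝ] ℝ)

/-- the derivative of the powers -/
lemma strict_pow {h : R → MvPolynomial κ ℚ} {g : κ → κ → MvPolynomial τ ℚ} {t₀ : τ → ℚ}
    {χ : R → MvPolynomial τ ℚ} (H : Inv h g t₀ χ) (E : ℕ) (i j : κ) :
    HasStrictFDerivAt (fun t : τ → ℝ => (GR g t ^ E) i j) ((E : ℝ) • dg g t₀ i j)
      (fun k => (t₀ k : ℝ)) := by
  have h1 : GR g (fun k => (t₀ k : ℝ)) = 1 := by
    rw [GR_cast]
    ext i j
    simp only [GQ, Matrix.map_apply, Matrix.of_apply, H.one, Matrix.one_apply]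
    split_ifs <;> simp
  induction E generalizing i j with
  | zero =>
    simp only [pow_zero, Nat.cast_zero, zero_smul]
    exact hasStrictFDerivAt_const _ _
  | succ E ih =>
    have h2 : (fun t : τ → ℝ => (GR g t ^ (E + 1)) i j) =
        fun t : τ → ℝ => ∑ k, (GR g t ^ E) i k * GR g t k j := by
      funext t
      rw [pow_succ, Matrix.mul_apply]
    rw [h2]
    have h3 : ∀ k, HasStrictFDerivAt (fun t : τ → ℝ => GR g t k j) (dg g t₀ k j)
        (fun k => (t₀ k : ℝ)) := by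
      intro k
      refine (strict_aeval (g k j) (fun k => (t₀ k : ℝ))).congr_fderiv ?_
      unfold dg
      refine Finset.sum_congr rfl fun l _ => ?_
      congr 1
      exact aeval_cast _ _
    have h4 := HasStrictFDerivAt.fun_sum (u := Finset.univ) fun k _ => (ih i k).mul (h3 k)
    refine h4.congr_fderiv ?_
    rw [h1, one_pow]
    simp only [Matrix.one_apply]
    rw [Finset.sum_add_distrib]
    simp only [ite_smul, one_smul, zero_smul, Finset.sum_ite_eq, Finset.sum_ite_eq',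
      Finset.mem_univ, if_true]
    push_cast
    rw [add_smul, one_smul, add_comm]

/-- nondegenerate points -/
def Nd (g : κ → κ → MvPolynomial τ ℚ) (t₀ : τ → ℚ) (x : κ → ℝ) : Prop :=
  ∃ σ : κ → τ, (Matrix.of fun i j => ∑ c,
    ((MvPolynomial.eval t₀ (MvPolynomial.pderiv (σ j) (g i c)) : ℚ) : ℝ) * x c).det ≠ 0

/-- the map of the implicit function theorem -/
lemma strict_map {h : R → MvPolynomial κ ℚ} {g : κ → κ → MvPolynomial τ ℚ} {t₀ : τ → ℚ}
    {χ : R → MvPolynomial τ ℚ} (H : Inv h g t₀ χ) {E : ℕ} (hE : E ≠ 0) {x : κ → ℝ}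
    (hx : Nd g t₀ x) :
    map (fun p : (τ → ℝ) × (κ → ℝ) => ((fun i => ∑ j, (GR g p.1 ^ E) i j * p.2 j : κ → ℝ), p.2))
      (𝓝 ((fun k => (t₀ k : ℝ)), x)) = 𝓝 (x, x) := by
  have h1 : GR g (fun k => (t₀ k : ℝ)) = 1 := by
    rw [GR_cast]
    ext i j
    simp only [GQ, Matrix.map_apply, Matrix.of_apply, H.one, Matrix.one_apply]
    split_ifs <;> simp
  set F' : (τ → ℝ) × (κ → ℝ) →L[ℝ] (κ → ℝ) := ContinuousLinearMap.pi fun i =>
    ∑ j, ((GR g (fun k => (t₀ k : ℝ)) ^ E) i j • (ContinuousLinearMap.proj j ∘L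
      ContinuousLinearMap.snd ℝ (τ → ℝ) (κ → ℝ)) + x j • (((E : ℝ) • dg g t₀ i j) ∘L
      ContinuousLinearMap.fst ℝ (τ → ℝ) (κ → ℝ))) with hF'
  have h2 : HasStrictFDerivAt (fun p : (τ → ℝ) × (κ → ℝ) =>
      (fun i => ∑ j, (GR g p.1 ^ E) i j * p.2 j : κ → ℝ)) F' ((fun k => (t₀ k : ℝ)), x) := by
    rw [hasStrictFDerivAt_pi]
    intro i
    refine HasStrictFDerivAt.fun_sum fun j _ => ?_
    have h3 : HasStrictFDerivAt (fun p : (τ → ℝ) × (κ → ℝ) => (GR g p.1 ^ E) i j)
        (((E : ℝ) • dg g t₀ i j) ∘L ContinuousLinearMap.fst ℝ (τ → ℝ) (κ → ℝ))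
        ((fun k => (t₀ k : ℝ)), x) :=
      HasStrictFDerivAt.comp (x := (((fun k => (t₀ k : ℝ)), x) : (τ → ℝ) × (κ → ℝ)))
        (g := fun t : τ → ℝ => (GR g t ^ E) i j) (strict_pow H E i j) hasStrictFDerivAt_fst
    have h4 : HasStrictFDerivAt (fun p : (τ → ℝ) × (κ → ℝ) => p.2 j)
        (ContinuousLinearMap.proj j ∘L ContinuousLinearMap.snd ℝ (τ → ℝ) (κ → ℝ))
        ((fun k => (t₀ k : ℝ)), x) := by
      exact (ContinuousLinearMap.proj j ∘L
        ContinuousLinearMap.snd ℝ (τ → ℝ) (κ → ℝ) : _ →L[ℝ] ℝ).hasStrictFDerivAt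
    exact h3.mul h4
  have h5 := h2.prodMk (hasStrictFDerivAt_snd (𝕜 := ℝ) (p := (((fun k => (t₀ k : ℝ)), x) :
    (τ → ℝ) × (κ → ℝ))))
  have h6 := h5.map_nhds_eq_of_surj (by
    rw [LinearMap.range_eq_top]
    rintro ⟨a, b⟩
    obtain ⟨σ, hσ⟩ := hx
    set M : Matrix κ κ ℝ := Matrix.of fun i j => ∑ c,
      ((MvPolynomial.eval t₀ (MvPolynomial.pderiv (σ j) (g i c)) : ℚ) : ℝ) * x c with hM
    have hu : IsUnit M.det := isUnit_iff_ne_zero.2 hσ
    set v : κ → ℝ := M⁻¹.mulVec fun i => (a i - b i) / E with hv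
    have hv' : M.mulVec v = fun i => (a i - b i) / E := by
      rw [hv, Matrix.mulVec_mulVec, Matrix.mul_nonsing_inv _ hu, Matrix.one_mulVec]
    classical
    set δ : τ → ℝ := fun k => ∑ j, if σ j = k then v j else 0 with hδ
    have hdg : ∀ i c, dg g t₀ i c δ = ∑ j,
        ((MvPolynomial.eval t₀ (MvPolynomial.pderiv (σ j) (g i c)) : ℚ) : ℝ) * v j := by
      intro i c
      simp only [dg, FunLike.coe_sum, Finset.sum_apply, FunLike.coe_smul,
        Pi.smul_apply, ContinuousLinearMap.proj_apply, smul_eq_mul, hδ, Finset.mul_sum]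
      rw [Finset.sum_comm]
      refine Finset.sum_congr rfl fun j _ => ?_
      rw [Finset.sum_eq_single (σ j)]
      · simp
      · intro k _ hk
        rw [if_neg (Ne.symm hk), mul_zero]
      · intro h
        exact absurd (Finset.mem_univ _) h
    have hE' : (E : ℝ) ≠ 0 := by exact_mod_cast hE
    refine ⟨(δ, b), Prod.ext ?_ rfl⟩
    funext i
    change (∑ j, ((GR g (fun k => (t₀ k : ℝ)) ^ E) i j • (ContinuousLinearMap.proj j ∘L
      ContinuousLinearMap.snd ℝ (τ → ℝ) (κ → ℝ)) + x j • (((E : ℝ) • dg g t₀ i j) ∘L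
      ContinuousLinearMap.fst ℝ (τ → ℝ) (κ → ℝ)))) (δ, b) = a i
    rw [h1, one_pow]
    simp only [FunLike.coe_sum, Finset.sum_apply, add_apply,
      FunLike.coe_smul, Pi.smul_apply, ContinuousLinearMap.coe_comp,
      Function.comp_apply, ContinuousLinearMap.coe_fst', ContinuousLinearMap.coe_snd',
      ContinuousLinearMap.proj_apply, smul_eq_mul, Matrix.one_apply, hdg]
    rw [Finset.sum_add_distrib]
    simp only [ite_mul, one_mul, zero_mul, Finset.sum_ite_eq, Finset.mem_univ, if_true]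
    have h7 := congrFun hv' i
    simp only [Matrix.mulVec, dotProduct, hM, Matrix.of_apply] at h7
    have h8 : ∑ c, x c * ((E : ℝ) * ∑ j,
        ((MvPolynomial.eval t₀ (MvPolynomial.pderiv (σ j) (g i c)) : ℚ) : ℝ) * v j) =
        E * ((a i - b i) / E) := by
      rw [← h7]
      simp only [Finset.mul_sum, Finset.sum_mul]
      rw [Finset.sum_comm]
      refine Finset.sum_congr rfl fun j _ => Finset.sum_congr rfl fun c _ => ?_
      ring
    rw [h8, mul_div_cancel₀ _ hE']
    ring)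
  rw [h6]
  congr 1
  refine Prod.ext ?_ rfl
  funext i
  simp only [h1, one_pow, Matrix.one_apply, ite_mul, one_mul, zero_mul, Finset.sum_ite_eq,
    Finset.mem_univ, if_true]

/-- the values of the powers -/
lemma inv_pow {h : R → MvPolynomial κ ℚ} {g : κ → κ → MvPolynomial τ ℚ} {t₀ : τ → ℚ}
    {χ : R → MvPolynomial τ ℚ} (H : Inv h g t₀ χ) (r : R) (t : τ → ℚ) (E : ℕ) (z : κ → ℚ) :
    MvPolynomial.eval (fun i => ∑ j, (GQ g t ^ E) i j * z j) (h r) =
      MvPolynomial.eval t (χ r) ^ E * MvPolynomial.eval z (h r) := by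
  induction E generalizing z with
  | zero => simp [Matrix.one_apply]
  | succ E ih =>
    have h1 : (fun i => ∑ j, (GQ g t ^ (E + 1)) i j * z j) =
        fun i => ∑ k, (GQ g t ^ E) i k * (∑ j, MvPolynomial.eval t (g k j) * z j) := by
      funext i
      rw [pow_succ]
      simp only [Matrix.mul_apply, GQ, Matrix.of_apply, Finset.sum_mul, Finset.mul_sum]
      rw [Finset.sum_comm]
      refine Finset.sum_congr rfl fun k _ => Finset.sum_congr rfl fun j _ => ?_
      ring
    rw [h1, ih, H.inv]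
    ring

/-- the set of the points -/
def NN (h : R → MvPolynomial κ ℚ) (g : κ → κ → MvPolynomial τ ℚ) (t₀ : τ → ℚ) : Set (κ → ℚ) :=
  {z | (∀ r, MvPolynomial.eval z (h r) ≠ 0) ∧ Nd g t₀ fun k => (z k : ℝ)}

/-- the set of the real points -/
def WW (h : R → MvPolynomial κ ℚ) (g : κ → κ → MvPolynomial τ ℚ) (t₀ : τ → ℚ) : Set (κ → ℝ) :=
  {x | (∀ r, (MvPolynomial.aeval x (h r) : ℝ) ≠ 0) ∧ Nd g t₀ x}

lemma cont_aeval (p : MvPolynomial κ ℚ) :
    Continuous fun x : κ → ℝ => (MvPolynomial.aeval x p : ℝ) := by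
  rw [continuous_iff_continuousAt]
  exact fun x => (strict_aeval p x).continuousAt

lemma cont_nd (g : κ → κ → MvPolynomial τ ℚ) (t₀ : τ → ℚ) (σ : κ → τ) :
    Continuous fun x : κ → ℝ => (Matrix.of fun i j => ∑ c,
    ((MvPolynomial.eval t₀ (MvPolynomial.pderiv (σ j) (g i c)) : ℚ) : ℝ) * x c).det := by
  refine Continuous.matrix_det ?_
  refine continuous_matrix fun i j => ?_
  simp only [Matrix.of_apply]
  fun_prop

lemma WW_open (h : R → MvPolynomial κ ℚ) (g : κ → κ → MvPolynomial τ ℚ) (t₀ : τ → ℚ) :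
    IsOpen (WW h g t₀) := by
  have e : WW h g t₀ = (⋂ r, {x | (MvPolynomial.aeval x (h r) : ℝ) ≠ 0}) ∩
      ⋃ σ : κ → τ, {x | (Matrix.of fun i j => ∑ c,
    ((MvPolynomial.eval t₀ (MvPolynomial.pderiv (σ j) (g i c)) : ℚ) : ℝ) * x c).det ≠ 0} := by
    ext x
    simp [WW, Nd]
  rw [e]
  refine IsOpen.inter ?_ ?_
  · exact isOpen_iInter_of_finite fun r => isOpen_ne_fun (cont_aeval _) continuous_const
  · exact isOpen_iUnion fun σ => isOpen_ne_fun (cont_nd g t₀ σ) continuous_const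

lemma WW_SA (h : R → MvPolynomial κ ℚ) (g : κ → κ → MvPolynomial τ ℚ) (t₀ : τ → ℚ) :
    SA (WW h g t₀) := by
  classical
  refine SAP.and (SAP.forall_fin fun r => SAP.not (SAP.eq_zero (PF.aeval (h r)))) ?_
  refine SAP.exists_fin fun σ => SAP.not (SAP.eq_zero ?_)
  simp only [Matrix.det_apply', Matrix.of_apply]
  refine PF.sum _ fun s _ => PF.mul ⟨MvPolynomial.C (((Equiv.Perm.sign s : ℤ) : ℚ)), fun v => by simp⟩
    (PF.prod _ fun i _ => PF.sum _ fun c _ => ?_)
  exact (PF.const _).mul (PF.coord _)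

/-- **Relative invariants are admissible.** -/
theorem fam_piece {h : R → MvPolynomial κ ℚ} {g : κ → κ → MvPolynomial τ ℚ} {t₀ : τ → ℚ}
    {χ : R → MvPolynomial τ ℚ} (H : Inv h g t₀ χ) {n : R → ℕ} (hn : ∀ r, n r ≠ 0) :
    Piece n h (NN h g t₀) (WW h g t₀) := by
  classical
  have := Fintype.ofFinite R
  refine ⟨WW_SA h g t₀, ?_, fun r => Or.inl fun x hx => hx.1 r, ?_⟩
  · rintro z ⟨h1, h2⟩
    refine ⟨fun r h3 => h1 r ?_, h2⟩
    rw [aeval_cast] at h3
    exact_mod_cast h3
  · intro z₀ hz₀ x hxW hx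
    set E : ℕ := ∏ r, n r with hE
    have hE0 : E ≠ 0 := Finset.prod_ne_zero_iff.2 fun r _ => hn r
    have hdvd : ∀ r, n r ∣ E := fun r => Finset.dvd_prod_of_mem n (Finset.mem_univ r)
    have hχ : ∀ r, MvPolynomial.eval t₀ (χ r) ≠ 0 := by
      intro r h0
      have h1 := H.inv r t₀ z₀
      rw [h0, zero_mul] at h1
      apply hz₀.1 r
      have h2 : (fun i => ∑ j, MvPolynomial.eval t₀ (g i j) * z₀ j) = z₀ := by
        funext i
        simp [H.one]
      rw [h2] at h1
      exact h1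
    -- the open set of the parameters
    set O : Set ((τ → ℝ) × (κ → ℝ)) := {p | ∀ r, (MvPolynomial.aeval p.1 (χ r) : ℝ) ≠ 0} with hO
    have hOo : IsOpen O := by
      have e : O = ⋂ r, {p | (MvPolynomial.aeval p.1 (χ r) : ℝ) ≠ 0} := by
        ext p
        simp [hO]
      rw [e]
      exact isOpen_iInter_of_finite fun r =>
        isOpen_ne_fun ((cont_aeval _).comp continuous_fst) continuous_const
    have hO0 : ((fun k => (t₀ k : ℝ)), x) ∈ O := by
      intro r
      rw [aeval_cast]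
      exact_mod_cast hχ r
    have h1 := strict_map H hE0 hxW.2
    have h2 : (fun p : (τ → ℝ) × (κ → ℝ) => ((fun i => ∑ j, (GR g p.1 ^ E) i j * p.2 j : κ → ℝ), p.2)) ''
        O ∈ 𝓝 (x, x) := by
      rw [← h1]
      exact image_mem_map (hOo.mem_nhds hO0)
    rw [nhds_prod_eq] at h2
    obtain ⟨U, hU, V, hV, hUV⟩ := Filter.mem_prod_iff.1 h2
    have hWn : WW h g t₀ ∈ 𝓝 x := (WW_open h g t₀).mem_nhds hxW
    -- a point of the class
    obtain ⟨_, ⟨z, hz, rfl⟩, hzV⟩ : ∃ y ∈ rl (cls n h (NN h g t₀) z₀), y ∈ V := by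
      obtain ⟨y, hy1, hy2⟩ := mem_closure_iff_nhds.1 hx V hV
      exact ⟨y, hy2, hy1⟩
    apply mem_nhdsWithin_of_mem_nhds
    filter_upwards [hU, hWn] with y hyU hyW
    obtain ⟨⟨t, z'⟩, ht, hp⟩ := hUV (mk_mem_prod hyU hzV)
    have hz' : z' = fun i => (z i : ℝ) := congrArg Prod.snd hp
    have hy : (fun i => ∑ j, (GR g t ^ E) i j * z' j) = y := congrArg Prod.fst hp
    subst hz'
    rw [← hy]
    -- rational approximations of the parameters
    have hdense : t ∈ closure (range fun (s : τ → ℚ) (k : τ) => (s k : ℝ)) := by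
      have h3 : DenseRange (fun (s : τ → ℚ) (k : τ) => (s k : ℝ)) :=
        DenseRange.piMap fun _ => Rat.isDenseEmbedding_coe_real.dense
      exact h3 t
    obtain ⟨v, hv, hvt⟩ := mem_closure_iff_seq_limit.1 hdense
    choose s hs using hv
    have hsl : Tendsto (fun m => (fun k => ((s m k : ℚ) : ℝ))) atTop (𝓝 t) :=
      hvt.congr fun m => (hs m).symm
    have hcont : Continuous fun t : τ → ℝ => (fun i => ∑ j, (GR g t ^ E) i j * (z j : ℝ) : κ → ℝ) := by
      refine continuous_pi fun i => continuous_finset_sum _ fun j _ => Continuous.mul ?_ continuous_const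
      have h3 : Continuous fun t : τ → ℝ => GR g t :=
        continuous_matrix fun i j => cont_aeval _
      exact (h3.pow E).matrix_elem i j
    have hlim := (hcont.tendsto t).comp hsl
    have hsO : ∀ᶠ m in atTop, ∀ r, MvPolynomial.eval (s m) (χ r) ≠ 0 := by
      have h3 : Tendsto (fun m => (((fun k => ((s m k : ℚ) : ℝ)), x) : (τ → ℝ) × (κ → ℝ))) atTop
          (𝓝 (t, x)) := hsl.prodMk_nhds tendsto_const_nhds
      filter_upwards [h3 (hOo.mem_nhds (fun r => ht r : (t, x) ∈ O))] with m hm r h0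
      apply hm r
      change (MvPolynomial.aeval (fun k => ((s m k : ℚ) : ℝ)) (χ r) : ℝ) = 0
      rw [aeval_cast, h0]
      norm_num
    have hcast : ∀ m, (fun i => ∑ j, (GR g (fun k => ((s m k : ℚ) : ℝ)) ^ E) i j * (z j : ℝ)) =
        fun i => ((∑ j, (GQ g (s m) ^ E) i j * z j : ℚ) : ℝ) := by
      intro m
      funext i
      rw [GR_cast, pow_cast]
      push_cast
      rfl
    have hW' : ∀ᶠ m in atTop, (fun i => ((∑ j, (GQ g (s m) ^ E) i j * z j : ℚ) : ℝ)) ∈ WW h g t₀ := by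
      have h3 := hlim ((WW_open h g t₀).mem_nhds (by
        change (fun i => ∑ j, (GR g t ^ E) i j * (z j : ℝ)) ∈ WW h g t₀
        rw [hy]
        exact hyW))
      filter_upwards [h3] with m hm
      rw [← hcast m]
      exact hm
    refine mem_closure_of_tendsto hlim ?_
    filter_upwards [hsO, hW'] with m hm1 hm2
    change (fun i => ∑ j, (GR g (fun k => ((s m k : ℚ) : ℝ)) ^ E) i j * (z j : ℝ)) ∈ _
    rw [hcast m]
    refine mem_rl (z := fun i => ∑ j, (GQ g (s m) ^ E) i j * z j) ⟨⟨fun r h0 => ?_, hm2.2⟩, fun r => ?_⟩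
    · apply hm2.1 r
      rw [aeval_cast, h0]
      norm_num
    · refine (hz.2 r).trans ?_
      obtain ⟨e, he⟩ := hdvd r
      refine ⟨MvPolynomial.eval (s m) (χ r) ^ e, pow_ne_zero _ (hm1 r), ?_⟩
      rw [inv_pow H, he]
      ring

end family

end Pool.Agent.J4H71.NF
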