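import Pool.Agent.J4H71.NF.Fam

/-!
# Norm forms are admissible (helper71)
-/

set_option autoImplicit false
set_option linter.unusedSectionVars false

namespace Pool.Agent.J4H71.NF

open Set Filter Topology Pool.Agent.H581R2 Pool.Agent.TH729.SQ Pool.Agent.J4H71.SC
  Pool.Agent.J4H71.PC

section norm

variable {κ K : Type} [Fintype κ] [DecidableEq κ] [CommRing K] [Algebra ℚ K]

/-- the element with given coordinates -/
noncomputable def elt (b : Module.Basis κ ℚ K) (u : κ → ℚ) : K := ∑ k, u k • b k

/-- the entries of the matrix of the multiplication -/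
noncomputable def gN (b : Module.Basis κ ℚ K) (i j : κ) : MvPolynomial κ ℚ :=
  ∑ k, MvPolynomial.C (Algebra.leftMulMatrix b (b k) i j) * MvPolynomial.X k

/-- the norm form -/
noncomputable def normPoly (b : Module.Basis κ ℚ K) : MvPolynomial κ ℚ :=
  (Matrix.of fun i j => gN b i j).det

lemma gN_eval (b : Module.Basis κ ℚ K) (u : κ → ℚ) (i j : κ) :
    MvPolynomial.eval u (gN b i j) = Algebra.leftMulMatrix b (elt b u) i j := by
  simp only [gN, elt, map_sum, map_mul, MvPolynomial.eval_C, MvPolynomial.eval_X, map_smul,
    Matrix.sum_apply, Matrix.smul_apply, smul_eq_mul]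
  exact Finset.sum_congr rfl fun k _ => mul_comm _ _

lemma normPoly_eval (b : Module.Basis κ ℚ K) (u : κ → ℚ) :
    MvPolynomial.eval u (normPoly b) = Algebra.norm ℚ (elt b u) := by
  rw [normPoly, Algebra.norm_eq_matrix_det b, RingHom.map_det]
  congr 1
  ext i j
  simp only [RingHom.mapMatrix_apply, Matrix.map_apply, Matrix.of_apply]
  exact gN_eval b u i j

lemma repr_elt (b : Module.Basis κ ℚ K) (u : κ → ℚ) (k : κ) : b.repr (elt b u) k = u k := by
  simp [elt, Module.Basis.repr_self, Finsupp.single_apply]

lemma elt_repr (b : Module.Basis κ ℚ K) (x : K) : elt b (fun k => b.repr x k) = x :=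
  b.sum_repr x

lemma elt_mul (b : Module.Basis κ ℚ K) (t z : κ → ℚ) :
    elt b (fun i => ∑ j, MvPolynomial.eval t (gN b i j) * z j) = elt b t * elt b z := by
  have h := Algebra.leftMulMatrix_mulVec_repr b (elt b t) (elt b z)
  have e : (fun i => ∑ j, MvPolynomial.eval t (gN b i j) * z j) =
      fun i => b.repr (elt b t * elt b z) i := by
    funext i
    rw [← congrFun h i]
    simp only [Matrix.mulVec, dotProduct, gN_eval, repr_elt]
  rw [e, elt_repr]

/-- multiplications -/
theorem inv_norm {R : Type} (b : Module.Basis κ ℚ K) (e : R → ℕ) :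
    Inv (fun r : R => normPoly b ^ e r) (gN b) (fun k => b.repr 1 k) (fun r => normPoly b ^ e r) := by
  refine ⟨fun i j => ?_, fun _ t z => ?_⟩
  · rw [gN_eval, elt_repr, map_one, Matrix.one_apply]
  · rw [map_pow, map_pow, map_pow, normPoly_eval, normPoly_eval, normPoly_eval, elt_mul, map_mul,
      mul_pow]

lemma aeval_norm_det (b : Module.Basis κ ℚ K) (x : κ → ℝ) :
    (MvPolynomial.aeval x (normPoly b) : ℝ) = (Matrix.of fun i j => ∑ k,
      ((Algebra.leftMulMatrix b (b k) i j : ℚ) : ℝ) * x k).det := by
  rw [normPoly, AlgHom.map_det]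
  congr 1
  ext i j
  simp [gN]

lemma nd_norm (b : Module.Basis κ ℚ K) {x : κ → ℝ}
    (hx : (MvPolynomial.aeval x (normPoly b) : ℝ) ≠ 0) : Nd (gN b) (fun k => b.repr 1 k) x := by
  refine ⟨id, ?_⟩
  rw [aeval_norm_det] at hx
  convert hx using 3
  ext i j
  refine Finset.sum_congr rfl fun c _ => ?_
  congr 2
  have h1 : MvPolynomial.pderiv (id j) (gN b i c) =
      MvPolynomial.C (Algebra.leftMulMatrix b (b j) i c) := by
    simp only [gN, map_sum, MvPolynomial.pderiv_C_mul, MvPolynomial.pderiv_X, id]
    rw [Finset.sum_eq_single j]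
    · simp
    · intro k _ hk
      rw [Pi.single_apply, if_neg hk]
      simp
    · intro h
      exact absurd (Finset.mem_univ _) h
  rw [h1, MvPolynomial.eval_C, Algebra.leftMulMatrix_eq_repr_mul, Algebra.leftMulMatrix_eq_repr_mul,
    mul_comm]

end norm

section field

variable {κ K R : Type} [Fintype κ] [DecidableEq κ] [Field K] [Algebra ℚ K] [Finite R]

lemma norm_zero_iff (b : Module.Basis κ ℚ K) (u : κ → ℚ) :
    MvPolynomial.eval u (normPoly b) = 0 ↔ u = 0 := by
  have : FiniteDimensional ℚ K := b.finiteDimensional_of_finite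
  rw [normPoly_eval, Algebra.norm_eq_zero_iff]
  constructor
  · intro h
    funext k
    rw [← repr_elt b u k, h]
    simp
  · rintro rfl
    simp [elt]

/-- **Norm forms are admissible.** -/
theorem norm_adm (b : Module.Basis κ ℚ K) {n e : R → ℕ} (hn : ∀ r, n r ≠ 0) (he : ∀ r, e r ≠ 0) :
    Adm n (fun r : R => normPoly b ^ e r) univ := by
  have h1 := fam_piece (inv_norm (R := R) b e) hn
  rcases isEmpty_or_nonempty R with hR | hR
  · -- no functions
    refine ⟨Unit, inferInstance, fun _ => univ, fun _ => univ,
      (iUnion_const _).symm, fun _ => ⟨?_, ?_, ?_, ?_⟩⟩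
    · exact SAP.const True
    · intro z _
      trivial
    · intro r
      exact (hR.false r).elim
    · intro z _ x _ _
      have e' : PC.cls n (fun r : R => normPoly b ^ e r) univ z = univ := by
        ext z'
        exact ⟨fun _ => mem_univ _, fun _ => ⟨mem_univ _, fun r => (hR.false r).elim⟩⟩
      change closure (rl (PC.cls n (fun r : R => normPoly b ^ e r) univ z)) ∈ _
      rw [e']
      have h2 : closure (rl (univ : Set (κ → ℚ))) = univ := by
        have h3 : DenseRange (fun (s : κ → ℚ) (k : κ) => (s k : ℝ)) :=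
          DenseRange.piMap fun _ => Rat.isDenseEmbedding_coe_real.dense
        rw [← h3.closure_range]
        congr 1
        ext y
        constructor
        · rintro ⟨r, -, rfl⟩
          exact ⟨r, rfl⟩
        · rintro ⟨r, rfl⟩
          exact mem_rl (mem_univ _)
      rw [h2]
      exact univ_mem
  · refine ⟨Bool, inferInstance, fun c => if c then NN (fun r : R => normPoly b ^ e r) (gN b)
      (fun k => b.repr 1 k) else {0}, fun c => if c then WW (fun r : R => normPoly b ^ e r) (gN b)
      (fun k => b.repr 1 k) else {0}, ?_, fun c => ?_⟩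
    · ext z
      simp only [mem_univ, mem_iUnion, true_iff]
      by_cases hz : z = 0
      · exact ⟨false, by simpa using hz⟩
      · refine ⟨true, ?_⟩
        have h2 : MvPolynomial.eval z (normPoly b) ≠ 0 := fun h => hz ((norm_zero_iff b z).1 h)
        simp only [if_true]
        refine ⟨fun r => ?_, nd_norm b ?_⟩
        · rw [map_pow]
          exact pow_ne_zero _ h2
        rw [aeval_cast]
        exact_mod_cast h2
    · cases c with
      | true =>
        simp only [if_true]
        exact h1
      | false =>
        simp only [Bool.false_eq_true, if_false]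
        refine ⟨?_, ?_, fun r => Or.inr ?_, ?_⟩
        · refine SAP.congr (SAP.forall_fin fun i => SAP.eq_zero (PF.coord i)) fun x => ?_
          exact ⟨fun h i => by rw [show x = 0 from h]; rfl, fun h => funext h⟩
        · rintro z rfl
          simp only [Pi.zero_apply, Rat.cast_zero, mem_singleton_iff]
          rfl
        · rintro x rfl
          have h2 := aeval_cast (0 : κ → ℚ) (normPoly b)
          simp only [Pi.zero_apply, Rat.cast_zero] at h2
          have h3 : (MvPolynomial.aeval (0 : κ → ℝ) (normPoly b) : ℝ) =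
              ((MvPolynomial.eval (0 : κ → ℚ) (normPoly b) : ℚ) : ℝ) := h2
          rw [map_pow, h3, (norm_zero_iff b 0).2 rfl, Rat.cast_zero, zero_pow (he r)]
        · rintro z _ x rfl hx
          rw [nhdsWithin_singleton]
          exact hx

lemma norm_smul (b : Module.Basis κ ℚ K) (r : ℚ) (u : κ → ℚ) :
    MvPolynomial.eval (fun i => r * u i) (normPoly b) =
      r ^ Fintype.card κ * MvPolynomial.eval u (normPoly b) := by
  have h1 : elt b (fun i => r * u i) = algebraMap ℚ K r * elt b u := by
    rw [elt, elt, Finset.mul_sum]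
    refine Finset.sum_congr rfl fun k _ => ?_
    rw [mul_smul, Algebra.smul_def r]
  rw [normPoly_eval, normPoly_eval, h1, map_mul, Algebra.norm_algebraMap_of_basis b]

end field

end Pool.Agent.J4H71.NF
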